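import Mathlib

set_option autoImplicit false

namespace Pool.Agent.L5helper13.TQ

open MvPolynomial

/-- The span of the characters of the torus in the space of functions on it. -/
def AA (k : Type) [Field k] (d : ℕ) : Submodule k ((Fin d → kˣ) → k) :=
  Submodule.span k (Set.range fun (χ : (Fin d → kˣ) →* k) (t : Fin d → kˣ) => χ t)

end Pool.Agent.L5helper13.TQ
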