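import Mathlib

set_option autoImplicit false

namespace Pool.Agent.L5helper13.TQ

open MvPolynomial

theorem eval_aeval_poly (k : Type) [Field k] (n : ℕ) (f : Fin n → Polynomial k)
    (H : MvPolynomial (Fin n) k) (u : k) :
    (aeval f H).eval u = eval (fun i => (f i).eval u) H := by
  induction H using MvPolynomial.induction_on with
  | C a => simp
  | add p q hp hq => rw [map_add, Polynomial.eval_add, hp, hq, map_add]
  | mul_X p i hp => rw [map_mul, Polynomial.eval_mul, hp, aeval_X, map_mul, eval_X]

theorem eval_smul_hom (k : Type) [Field k] (n D : ℕ) (H : MvPolynomial (Fin n) k)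
    (hH : H.IsHomogeneous D) (c : k) (x : Fin n → k) :
    eval (c • x) H = c ^ D * eval x H := by
  rw [eval_eq, eval_eq, Finset.mul_sum]
  refine Finset.sum_congr rfl fun e he => ?_
  have h1 : e.degree = D := by
    rw [Finsupp.degree_eq_weight_one]
    exact hH (mem_support_iff.1 he)
  simp only [Pi.smul_apply, smul_eq_mul, mul_pow, Finset.prod_mul_distrib]
  have h2 : ∏ i ∈ e.support, c ^ e i = c ^ D := by
    rw [Finset.prod_pow_eq_pow_sum, ← h1]
    rfl
  rw [h2]
  ring

theorem compare_gen (k : Type) [Field k] [CharZero k] (n D : ℕ) (hD : 2 ≤ D)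
    (H : MvPolynomial (Fin n) k) (hH : H.IsHomogeneous D) (v w : Fin n → k) (A B : k)
    (h : ∀ c : k, c * A + c ^ D * B = eval (c • v + c ^ D • w) H) :
    A = 0 ∧ ∀ u : k, eval (v + u • w) H = B := by
  obtain ⟨Q, hQ⟩ : ∃ Q : Polynomial k, ∀ u, Q.eval u = eval (v + u • w) H := by
    refine ⟨aeval (fun i => Polynomial.C (v i) + Polynomial.X * Polynomial.C (w i)) H, ?_⟩
    intro u
    rw [eval_aeval_poly]
    congr 1
    congr 1
    funext i
    simp only [Polynomial.eval_add, Polynomial.eval_C, Polynomial.eval_mul, Polynomial.eval_X,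
      Pi.add_apply, Pi.smul_apply, smul_eq_mul]
  have hc : ∀ c : k, eval (c • v + c ^ D • w) H = c ^ D * eval (v + c ^ (D - 1) • w) H := by
    intro c
    have e1 : c • v + c ^ D • w = c • (v + c ^ (D - 1) • w) := by
      rw [smul_add, smul_smul, ← pow_succ', Nat.sub_add_cancel (by omega)]
    rw [e1, eval_smul_hom k n D H hH]
  have hpoly : Polynomial.X * Polynomial.C A + Polynomial.X ^ D * Polynomial.C B =
      Polynomial.X ^ D * Polynomial.expand k (D - 1) Q := by
    apply Polynomial.funext
    intro c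
    have := h c
    rw [hc c, ← hQ] at this
    simp only [Polynomial.eval_add, Polynomial.eval_mul, Polynomial.eval_X, Polynomial.eval_C,
      Polynomial.eval_pow, Polynomial.expand_eval]
    exact this
  have hA : A = 0 := by
    have e1 := congrArg (fun p => Polynomial.coeff p 1) hpoly
    simp only [Polynomial.coeff_add, Polynomial.coeff_X_pow_mul', Polynomial.coeff_X_mul] at e1
    rw [if_neg (by omega), if_neg (by omega)] at e1
    simpa using e1
  refine ⟨hA, ?_⟩
  rw [hA, map_zero, mul_zero, zero_add] at hpoly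
  have e2 : Polynomial.C B = Polynomial.expand k (D - 1) Q :=
    mul_left_cancel₀ (pow_ne_zero D Polynomial.X_ne_zero) hpoly
  have e3 : Q = Polynomial.C B := by
    apply Polynomial.expand_injective (R := k) (n := D - 1) (by omega)
    rw [← e2, Polynomial.expand_C]
  intro u
  rw [← hQ, e3, Polynomial.eval_C]

theorem abstract_gen (k : Type) [Field k] (V : Type) [AddCommGroup V]
    [Module k V] (T : Type) [CommGroup T] (l : T → V →ₗ[k] V) (h : T → V → V)
    (h1 : ∀ x, l 1 x = x) (hl : ∀ s t x, l (s * t) x = l s (l t x))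
    (h2 : ∀ s t x, h (s * t) x = l s (h t x) + h s (l t x))
    (h3 : ∀ s t x (u : k), h s (l t x + u • h t x) = h s (l t x))
    (E : (T → V) →ₗ[k] V) (E1 : ∀ (A : V →ₗ[k] V) (f : T → V), E (fun t => A (f t)) = A (E f))
    (E2 : ∀ v, E (fun _ => v) = v)
    (E3 : ∀ x s, E (fun t => l (t * s)⁻¹ (h (t * s) x)) = E (fun t => l t⁻¹ (h t x)))
    (m : V → V) (hm : ∀ x, m x = E (fun t => l t⁻¹ (h t x))) :
    (∀ x (u : k), m (x + u • m x) = m x) ∧
      (∀ s x, (l s x + h s x) + m (l s x + h s x) = l s (x + m x)) := by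
  have hz : ∀ x, h 1 x = 0 := by
    intro x
    have e1 := h2 1 1 x
    rw [mul_one, h1, h1] at e1
    exact left_eq_add.1 e1
  have hinv : ∀ t x, l t⁻¹ (l t x) = x := by
    intro t x
    rw [← hl, inv_mul_cancel, h1]
  have hg : ∀ t x, h t⁻¹ (l t x) = - l t⁻¹ (h t x) := by
    intro t x
    have e1 := h2 t⁻¹ t x
    rw [inv_mul_cancel, hz] at e1
    exact (neg_eq_of_add_eq_zero_right e1.symm).symm
  have hs : ∀ s t x (u : k), h s (x + u • l t⁻¹ (h t x)) = h s x := by
    intro s t x u
    have e1 := h3 s t⁻¹ (l t x) (-u)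
    rw [hinv, hg, smul_neg, neg_smul, neg_neg] at e1
    exact e1
  have hspan : ∀ x, ∀ v ∈ Submodule.span k (Set.range fun t => l t⁻¹ (h t x)),
      ∀ (c : k) (w : V), (∀ s, h s (x + w) = h s x) → ∀ s, h s (x + (w + c • v)) = h s x := by
    intro x v hv
    induction hv using Submodule.span_induction with
    | mem y hy =>
      obtain ⟨t, rfl⟩ := hy
      intro c w hw s
      have e1 := hs s t (x + w) c
      rw [hw t, hw s, add_assoc] at e1
      exact e1
    | zero =>
      intro c w hw s
      rw [smul_zero, add_zero]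
      exact hw s
    | add y z _ _ hy hz =>
      intro c w hw s
      rw [smul_add, ← add_assoc w]
      exact hz c (w + c • y) (hy c w hw) s
    | smul a y _ hy =>
      intro c w hw s
      rw [smul_smul]
      exact hy (c * a) w hw s
  have hmW : ∀ x, m x ∈ Submodule.span k (Set.range fun t => l t⁻¹ (h t x)) := by
    intro x
    rw [← Subspace.forall_mem_dualAnnihilator_apply_eq_zero_iff]
    intro φ hφ
    rw [Submodule.mem_dualAnnihilator] at hφ
    have e1 := E1 (φ.smulRight (m x)) (fun t => l t⁻¹ (h t x))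
    have e2 : (fun t => (φ.smulRight (m x)) (l t⁻¹ (h t x))) = (fun _ => (0 : V)) := by
      funext t
      rw [LinearMap.smulRight_apply, hφ _ (Submodule.subset_span ⟨t, rfl⟩), zero_smul]
    rw [e2, E2, ← hm, LinearMap.smulRight_apply] at e1
    rcases smul_eq_zero.1 e1.symm with e3 | e3
    · exact e3
    · rw [e3, map_zero]
  refine ⟨fun x u => ?_, fun s x => ?_⟩
  · have e1 : ∀ s, h s (x + u • m x) = h s x := by
      intro s
      have := hspan x (m x) (hmW x) u 0 (fun s => by rw [add_zero]) s
      rwa [zero_add] at this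
    rw [hm (x + u • m x)]
    simp only [e1]
    exact (hm x).symm
  · have e1 : ∀ t, l t⁻¹ (h t (l s x + h s x)) = l s (l (t * s)⁻¹ (h (t * s) x)) - h s x := by
      intro t
      have e2 := h3 t s x 1
      rw [one_smul] at e2
      have e3 : l s (l (t * s)⁻¹ (h (t * s) x)) = l t⁻¹ (h (t * s) x) := by
        rw [← hl]
        congr 2
        rw [mul_inv, mul_comm t⁻¹, mul_inv_cancel_left]
      rw [e2, e3, h2 t s x, map_add, hinv]
      abel
    have e4 : m (l s x + h s x) = l s (m x) - h s x := by
      rw [hm (l s x + h s x)]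
      simp only [e1]
      have e5 : (fun t => l s (l (t * s)⁻¹ (h (t * s) x)) - h s x) =
          (fun t => l s (l (t * s)⁻¹ (h (t * s) x))) - (fun _ => h s x) := rfl
      rw [e5, map_sub, E2, E1 (l s) (fun t => l (t * s)⁻¹ (h (t * s) x)), E3, ← hm]
    rw [e4, map_add]
    abel

end Pool.Agent.L5helper13.TQ
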