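import Pool.Agent.L5helper13.TQ.Defs
import Pool.Agent.L5helper13.TQ.Gen
import Pool.Agent.L5helper27.TQMean
import Pool.Agent.L5helper75.TQAA
import Pool.Agent.L5helper17.TQCoeff

set_option autoImplicit false

namespace Pool.Agent.L5helper13.TQ

open MvPolynomial

variable {k : Type} [Field k] {n d : ℕ}

theorem eval_aeval' (x : Fin n → k) (h : Fin n → MvPolynomial (Fin n) k)
    (p : MvPolynomial (Fin n) k) : eval x (aeval h p) = eval (fun i => eval x (h i)) p := by
  induction p using MvPolynomial.induction_on with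
  | C a => simp
  | add p q hp hq => rw [map_add, map_add, map_add, hp, hq]
  | mul_X p i hp => rw [map_mul, map_mul, map_mul, hp, aeval_X, eval_X]

theorem eval_equiv (F : MvPolynomial (Fin n) k ≃ₐ[k] MvPolynomial (Fin n) k) (x : Fin n → k)
    (p : MvPolynomial (Fin n) k) : eval x (F p) = eval (fun i => eval x (F (X i))) p := by
  induction p using MvPolynomial.induction_on with
  | C a =>
    have h : F (C a) = C a := by
      have := F.commutes a
      rwa [MvPolynomial.algebraMap_eq] at this
    rw [h, eval_C, eval_C]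
  | add p q hp hq => rw [map_add, map_add, map_add, hp, hq]
  | mul_X p i hp => rw [map_mul, map_mul, map_mul, hp, eval_X]

theorem exists_equiv (f g : MvPolynomial (Fin n) k →ₐ[k] MvPolynomial (Fin n) k)
    (h1 : ∀ p, f (g p) = p) (h2 : ∀ p, g (f p) = p) :
    ∃ G : MvPolynomial (Fin n) k ≃ₐ[k] MvPolynomial (Fin n) k, ∀ p, G p = f p :=
  ⟨AlgEquiv.ofAlgHom f g (AlgHom.ext h1) (AlgHom.ext h2), fun _ => rfl⟩

theorem exists_lin (a : Fin n → Fin n → k) :
    ∃ l : (Fin n → k) →ₗ[k] (Fin n → k), ∀ x i, l x i = ∑ j, a i j * x j :=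
  ⟨Matrix.toLin' (Matrix.of a), fun x i => by
    simp [Matrix.toLin'_apply, Matrix.mulVec, dotProduct]⟩

theorem lin_coord (A : (Fin n → k) →ₗ[k] (Fin n → k)) (v : Fin n → k) (i : Fin n) :
    A v i = ∑ j, A (Pi.single j 1) i * v j := by
  conv_lhs => rw [← Finset.univ_sum_single v]
  rw [map_sum, Finset.sum_apply]
  refine Finset.sum_congr rfl fun j _ => ?_
  have h : (Pi.single j (v j) : Fin n → k) = v j • Pi.single j 1 := by
    rw [← Pi.single_smul, smul_eq_mul, mul_one]
  rw [h, map_smul, Pi.smul_apply, smul_eq_mul, mul_comm]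

/-- A linear form is given by its coefficients. -/
theorem eval_lin (p : MvPolynomial (Fin n) k) (hp : p.IsHomogeneous 1) (x : Fin n → k) :
    eval x p = ∑ j, coeff (Finsupp.single j 1) p * x j := by
  classical
  rw [eval_eq']
  have h1 : p.support ⊆ Finset.univ.image (fun j : Fin n => Finsupp.single j 1) := by
    intro e he
    have h2 : e.degree = 1 := by
      rw [Finsupp.degree_eq_weight_one]
      exact hp (mem_support_iff.1 he)
    have hne : e ≠ 0 := by
      rintro rfl
      simp at h2
    obtain ⟨j, hj⟩ := Finsupp.ne_iff.1 hne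
    have hle : Finsupp.single j 1 ≤ e := by
      rw [Finsupp.single_le_iff]
      exact Nat.one_le_iff_ne_zero.2 hj
    obtain ⟨e', rfl⟩ := exists_add_of_le hle
    rw [map_add, Finsupp.degree_single] at h2
    have h3 : e' = 0 := (Finsupp.degree_eq_zero_iff e').1 (by omega)
    subst h3
    exact Finset.mem_image.2 ⟨j, Finset.mem_univ _, (add_zero _).symm⟩
  rw [Finset.sum_subset h1 (fun e _ he => by rw [notMem_support_iff.1 he, zero_mul])]
  rw [Finset.sum_image (fun i _ j _ h => (Finsupp.single_left_inj one_ne_zero).1 h)]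
  refine Finset.sum_congr rfl fun j _ => ?_
  congr 1
  rw [Finset.prod_eq_single j]
  · simp
  · intro i _ hij
    rw [Finsupp.single_apply, if_neg (fun h => hij h.symm), pow_zero]
  · intro h
    exact absurd (Finset.mem_univ j) h

/-- A form of degree `D` is given by its coefficients in the exponents of degree `D`. -/
theorem eval_form (D : ℕ) (p : MvPolynomial (Fin n) k) (hp : p.IsHomogeneous D) (x : Fin n → k) :
    eval x p = ∑ e ∈ Finset.univ.finsuppAntidiag D, coeff e p * ∏ i, x i ^ e i := by
  classical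
  rw [eval_eq']
  refine Finset.sum_subset ?_ (fun e _ he => by rw [notMem_support_iff.1 he, zero_mul])
  intro e he
  rw [Finset.mem_finsuppAntidiag]
  refine ⟨?_, Finset.subset_univ _⟩
  have h2 : e.degree = D := by
    rw [Finsupp.degree_eq_weight_one]
    exact hp (mem_support_iff.1 he)
  rw [← h2, Finsupp.degree_eq_sum]

/-- The mean on vector-valued functions. -/
theorem exists_mean_vec (k : Type) [Field k] (n d : ℕ) :
    ∃ E : ((Fin d → kˣ) → (Fin n → k)) →ₗ[k] (Fin n → k),
      (∀ (A : (Fin n → k) →ₗ[k] (Fin n → k)) (f : (Fin d → kˣ) → (Fin n → k)),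
        E (fun t => A (f t)) = A (E f)) ∧
      (∀ v, E (fun _ => v) = v) ∧
      (∀ f : (Fin d → kˣ) → (Fin n → k), (∀ i, (fun t => f t i) ∈ AA k d) →
        ∀ s, E (fun t => f (t * s)) = E f) := by
  obtain ⟨E, hE1, hE2, -⟩ := exists_mean k d
  obtain ⟨E', hE'⟩ : ∃ E' : ((Fin d → kˣ) → (Fin n → k)) →ₗ[k] (Fin n → k),
      ∀ f i, E' f i = E (fun t => f t i) := by
    refine ⟨{ toFun := fun f i => E (fun t => f t i), map_add' := ?_, map_smul' := ?_ }, ?_⟩
    · intro f g
      funext i
      exact map_add E (fun t => f t i) (fun t => g t i)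
    · intro c f
      funext i
      exact map_smul E c (fun t => f t i)
    · intro f i
      rfl
  refine ⟨E', ?_, ?_, ?_⟩
  · intro A f
    funext i
    rw [hE', lin_coord A (E' f) i]
    have h1 : (fun t => A (f t) i) = ∑ j, A (Pi.single j 1) i • (fun t => f t j) := by
      funext t
      rw [lin_coord A (f t) i, Finset.sum_apply]
      rfl
    rw [h1, map_sum]
    refine Finset.sum_congr rfl fun j _ => ?_
    rw [map_smul, smul_eq_mul, hE']
  · intro v
    funext i
    rw [hE']
    have h1 : (fun _ : Fin d → kˣ => v i) = v i • (fun _ : Fin d → kˣ => (1 : k)) := by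
      funext t
      simp
    rw [h1, map_smul, hE1, smul_eq_mul, mul_one]
  · intro f hf s
    funext i
    rw [hE', hE']
    exact hE2 _ (hf i) s

/-- Torus actions of the form linear plus homogeneous of degree `D` are linearizable. -/
theorem main_gen (k : Type) [Field k] [CharZero k] (n d D : ℕ) (hD : 2 ≤ D)
    (ρ : (Fin d → kˣ) →* (MvPolynomial (Fin n) k ≃ₐ[k] MvPolynomial (Fin n) k))
    (halg : ∃ (m : ℕ) (F : Fin n → MvPolynomial (Fin d ⊕ Fin n) k),
      ∀ (t : Fin d → kˣ) (j : Fin n),
        C ((∏ i, ((t i : kˣ) : k)) ^ m) * ρ t (X j) =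
          aeval (Sum.elim (fun i : Fin d => C ((t i : kˣ) : k))
            (fun l : Fin n => (X l : MvPolynomial (Fin n) k))) (F j))
    (hdeg : ∀ t j, ∃ L H : MvPolynomial (Fin n) k, L.IsHomogeneous 1 ∧ H.IsHomogeneous D ∧
      ρ t (X j) = L + H) :
    ∃ φ : MvPolynomial (Fin n) k ≃ₐ[k] MvPolynomial (Fin n) k,
      ∀ (t : Fin d → kˣ) (j : Fin n), ((φ * ρ t * φ⁻¹) (X j)).IsHomogeneous 1 := by
  classical
  obtain ⟨m, F, hF⟩ := halg
  choose L H hL hH hLH using hdeg
  set a : (Fin d → kˣ) → Fin n → Fin n → k := fun t i j => coeff (Finsupp.single j 1) (L t i)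
    with ha
  have haA : ∀ i j, (fun t => a t i j) ∈ AA k d := by
    intro i j
    have h1 := coeff_AA k n d (fun t => ρ t (X i)) m (F i) (fun t => hF t i) (Finsupp.single j 1)
    have h2 : (fun t => a t i j) = (fun t => coeff (Finsupp.single j 1) (ρ t (X i))) := by
      funext t
      rw [hLH, coeff_add]
      have h3 : coeff (Finsupp.single j 1) (H t i) = 0 := by
        refine (hH t i).coeff_eq_zero ?_
        rw [Finsupp.degree_single]
        omega
      rw [h3, add_zero]
    rw [h2]
    exact h1
  have hbA : ∀ i (e : Fin n →₀ ℕ), (fun t => coeff e (H t i)) ∈ AA k d := by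
    intro i e
    by_cases he : e.degree = D
    · have h1 := coeff_AA k n d (fun t => ρ t (X i)) m (F i) (fun t => hF t i) e
      have h2 : (fun t => coeff e (H t i)) = (fun t => coeff e (ρ t (X i))) := by
        funext t
        rw [hLH, coeff_add]
        have h3 : coeff e (L t i) = 0 := by
          refine (hL t i).coeff_eq_zero ?_
          omega
        rw [h3, zero_add]
      rw [h2]
      exact h1
    · have h2 : (fun t => coeff e (H t i)) = 0 := by
        funext t
        exact (hH t i).coeff_eq_zero he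
      rw [h2]
      exact Submodule.zero_mem _
  choose l hl using fun t => exists_lin (a t)
  obtain ⟨h, hh⟩ : ∃ h : (Fin d → kˣ) → (Fin n → k) → (Fin n → k),
      ∀ t x i, h t x i = eval x (H t i) := ⟨fun t x i => eval x (H t i), fun _ _ _ => rfl⟩
  have hf : ∀ t x, (fun i => eval x (ρ t (X i))) = l t x + h t x := by
    intro t x
    funext i
    rw [hLH, map_add, eval_lin _ (hL t i), Pi.add_apply, hl, hh]
  have hρe : ∀ t x p, eval x (ρ t p) = eval (l t x + h t x) p := by
    intro t x p
    rw [eval_equiv, hf]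
  have hhs : ∀ t (c : k) x, h t (c • x) = c ^ D • h t x := by
    intro t c x
    funext i
    rw [hh, eval_smul_hom k n D (H t i) (hH t i), Pi.smul_apply, hh, smul_eq_mul]
  have h1 : ∀ x, l 1 x = x := by
    intro x
    funext i
    rw [hl]
    have h2 : ∀ j, a 1 i j = if j = i then 1 else 0 := by
      intro j
      have h4 : coeff (Finsupp.single j 1) (H 1 i) = 0 := by
        refine (hH 1 i).coeff_eq_zero ?_
        rw [Finsupp.degree_single]
        omega
      have h3 : a 1 i j = coeff (Finsupp.single j 1) (ρ 1 (X i)) := by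
        rw [hLH, coeff_add, h4, add_zero]
      rw [h3, map_one, AlgEquiv.one_apply, MvPolynomial.coeff_X']
      by_cases hij : j = i
      · subst hij
        simp
      · rw [if_neg hij, if_neg]
        intro h
        exact hij ((Finsupp.single_left_inj one_ne_zero).1 h).symm
    simp only [h2, ite_mul, one_mul, zero_mul, Finset.sum_ite_eq', Finset.mem_univ, if_true]
  have hcomp : ∀ s t x, l (s * t) x + h (s * t) x =
      l s (l t x + h t x) + h s (l t x + h t x) := by
    intro s t x
    funext i
    have e1 := hρe (t * s) x (X i)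
    rw [map_mul, AlgEquiv.mul_apply, hρe, hρe, eval_X, eval_X, mul_comm t s] at e1
    exact e1.symm
  have hall : ∀ s t x i, (l (s * t) x - l s (l t x)) i = 0 ∧
      ∀ u : k, eval (l t x + u • h t x) (H s i) = (h (s * t) x - l s (h t x)) i := by
    intro s t x i
    refine compare_gen k n D hD (H s i) (hH s i) (l t x) (h t x) _ _ ?_
    intro c
    have e1 := congrFun (hcomp s t (c • x)) i
    simp only [map_smul, hhs, map_add, Pi.add_apply, Pi.smul_apply, smul_eq_mul] at e1
    rw [← hh]
    simp only [Pi.sub_apply]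
    linear_combination e1
  have H1 : ∀ s t x, l (s * t) x = l s (l t x) := by
    intro s t x
    funext i
    have := (hall s t x i).1
    rw [Pi.sub_apply] at this
    exact sub_eq_zero.1 this
  have H2 : ∀ s t x, h (s * t) x = l s (h t x) + h s (l t x) := by
    intro s t x
    funext i
    have e1 := (hall s t x i).2 0
    rw [zero_smul, add_zero, ← hh, Pi.sub_apply] at e1
    rw [Pi.add_apply, e1]
    ring
  have H3 : ∀ s t x (u : k), h s (l t x + u • h t x) = h s (l t x) := by
    intro s t x u
    funext i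
    have e1 := (hall s t x i).2 0
    have e2 := (hall s t x i).2 u
    rw [zero_smul, add_zero] at e1
    rw [hh, hh, e1, e2]
  obtain ⟨E, E1, E2, E3⟩ := exists_mean_vec k n d
  have hexp : ∀ t x i, l t⁻¹ (h t x) i = ∑ e ∈ Finset.univ.finsuppAntidiag D,
      (∏ q, x q ^ e q) * ∑ j, a t⁻¹ i j * coeff e (H t j) := by
    intro t x i
    rw [hl]
    simp only [hh]
    rw [Finset.sum_congr rfl fun j _ => by rw [eval_form D _ (hH t j) x]]
    simp only [Finset.mul_sum]
    rw [Finset.sum_comm]
    refine Finset.sum_congr rfl fun e _ => Finset.sum_congr rfl fun j _ => ?_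
    ring
  have hmem : ∀ x i, (fun t => l t⁻¹ (h t x) i) ∈ AA k d := by
    intro x i
    have e1 : (fun t => l t⁻¹ (h t x) i) = ∑ e ∈ Finset.univ.finsuppAntidiag D,
        (∏ q, x q ^ e q) • ∑ j, (fun t => a t⁻¹ i j * coeff e (H t j)) := by
      funext t
      rw [hexp, Finset.sum_apply]
      refine Finset.sum_congr rfl fun e _ => ?_
      rw [Pi.smul_apply, Finset.sum_apply, smul_eq_mul]
    rw [e1]
    refine Submodule.sum_mem _ fun e _ => Submodule.smul_mem _ _ (Submodule.sum_mem _ fun j _ => ?_)
    exact AA_mul k d _ _ (AA_inv k d (fun t => a t i j) (haA i j)) (hbA j e)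
  set w : (Fin n →₀ ℕ) → (Fin d → kˣ) → (Fin n → k) := fun e t i =>
    ∑ j, a t⁻¹ i j * coeff e (H t j) with hw
  set mp : Fin n → MvPolynomial (Fin n) k := fun i => ∑ e ∈ Finset.univ.finsuppAntidiag D,
    monomial e (E (w e) i) with hmp
  have hmpe : ∀ x i, eval x (mp i) = E (fun t => l t⁻¹ (h t x)) i := by
    intro x i
    have e1 : (fun t => l t⁻¹ (h t x)) = ∑ e ∈ Finset.univ.finsuppAntidiag D,
        (∏ q, x q ^ e q) • w e := by
      funext t i
      rw [hexp, Finset.sum_apply, Finset.sum_apply]
      rfl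
    rw [e1, map_sum E, Finset.sum_apply, hmp]
    simp only
    rw [map_sum (eval x)]
    refine Finset.sum_congr rfl fun e _ => ?_
    rw [map_smul E, Pi.smul_apply, smul_eq_mul, eval_monomial, Finsupp.prod_fintype _ _
      (fun i => pow_zero _), mul_comm]
  obtain ⟨hm1, hm2⟩ := abstract_gen k (Fin n → k) (Fin d → kˣ) l h h1 H1 H2 H3 E E1 E2
    (fun x s => E3 (fun t => l t⁻¹ (h t x)) (hmem x) s)
    (fun x i => eval x (mp i)) (fun x => funext (hmpe x))
  set g : k → Fin n → MvPolynomial (Fin n) k := fun c i => X i + C c * mp i with hg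
  have hge : ∀ c x, (fun i => eval x (g c i)) = x + c • (fun i => eval x (mp i)) := by
    intro c x
    funext i
    simp only [hg, map_add, map_mul, eval_X, eval_C, Pi.add_apply, Pi.smul_apply, smul_eq_mul]
  have hgg : ∀ c p, aeval (g c) (aeval (g (-c)) p) = p := by
    intro c p
    apply MvPolynomial.funext
    intro x
    rw [eval_aeval', eval_aeval', hge, hge, hm1 x c]
    congr 2
    module
  obtain ⟨Φ, hΦ⟩ := exists_equiv (aeval (g 1)) (aeval (g (-1))) (hgg 1) (by
    intro p
    have := hgg (-1) p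
    rwa [neg_neg] at this)
  have hΦe : ∀ x p, eval x (Φ p) = eval (x + (fun i => eval x (mp i))) p := by
    intro x p
    rw [hΦ, eval_aeval', hge, one_smul]
  refine ⟨Φ⁻¹, fun t j => ?_⟩
  have hkey : ρ t (Φ (X j)) = Φ (∑ i, C (a t j i) * X i) := by
    apply MvPolynomial.funext
    intro x
    rw [hρe, hΦe, hΦe, hm2, eval_X, map_sum, hl]
    refine Finset.sum_congr rfl fun i _ => ?_
    rw [map_mul, eval_C, eval_X]
  rw [inv_inv, AlgEquiv.mul_apply, AlgEquiv.mul_apply, hkey]
  have e5 : Φ⁻¹ (Φ (∑ i, C (a t j i) * X i)) = ∑ i, C (a t j i) * X i :=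
    Φ.symm_apply_apply _
  rw [e5]
  refine IsHomogeneous.sum _ _ _ fun i _ => ?_
  have e6 := (isHomogeneous_C (Fin n) (a t j i)).mul (isHomogeneous_X k i)
  rwa [zero_add] at e6

end Pool.Agent.L5helper13.TQ
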